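import Mathlib
import Pool.Agent.Lib.MP_959b39_lc.FAlg

set_option autoImplicit false

namespace Pool.Agent.Results.MP_959b39_lc.DualFPT

open Pool.Agent.Lib.MP_959b39_lc

/-- Dual Separator is fixed-parameter tractable: one Turing machine with finite stack alphabets
decides it in time `2 ^ (c (k+1)^2) * (input length) ^ c`. -/
theorem result : ∃ (M : Turing.TM2ComputableAux Bool Bool) (c : ℕ) (ans : SepInst → Bool),
    (∀ i, Finite (M.tm.Γ i)) ∧ (∀ y, ans y = true ↔ y.HasSep) ∧
    ∀ y, Nonempty (Turing.TM2OutputsInTime M.tm (List.map M.inputAlphabet.invFun y.code)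
      (some (List.map M.outputAlphabet.invFun [ans y]))
      (2 ^ (c * (y.k + 1) ^ 2) * y.code.length ^ c)) :=
  Fpt.dual_fpt

end Pool.Agent.Results.MP_959b39_lc.DualFPT
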